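import Pool.Agent.Helper96.OP.Defs2

/-!
Gersten's relations in `Aut(F_n)`.
-/

set_option autoImplicit false

namespace Pool.Agent.Helper16.OP

open Pool.Agent.Helper96.OP

section basic

variable {ι : Type}

lemma aut_ext' {α β : MulAut (FreeGroup ι)} (h : ∀ i, ∃ y : Ltr ι, y.1 = i ∧ α (el y) = β (el y)) :
    α = β := by
  refine aut_ext fun i => ?_
  obtain ⟨y, hy, h⟩ := h i
  have hy' : y.1 = ((i, true) : Ltr ι).1 := hy
  rcases eq_or_eq_inv hy' with h' | h'
  · rw [h', el_true] at h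
    exact h
  · rw [h', el_inv, map_inv, map_inv, el_true] at h
    exact inv_injective_of h
where
  inv_injective_of {a b : FreeGroup ι} (h : a⁻¹ = b⁻¹) : a = b := inv_inj.mp h

lemma aut_ext_el {α β : MulAut (FreeGroup ι)} (h : ∀ y : Ltr ι, α (el y) = β (el y)) :
    α = β := aut_ext fun i => h (i, true)

lemma el_mul_inv (x : Ltr ι) : el x * el (inv x) = 1 := by
  rw [el_inv, mul_inv_cancel]

lemma ap_fst_iff (w : W ι) (x y : Ltr ι) : (ap w x).1 = (ap w y).1 ↔ x.1 = y.1 := by
  constructor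
  · intro h
    rcases eq_or_eq_inv h with h | h
    · rw [ap_injective w h]
    · rw [← ap_inv] at h
      rw [ap_injective w h, inv_fst]
  · intro h
    rcases eq_or_eq_inv h with h | h
    · rw [h]
    · rw [h, ap_inv, inv_fst]

end basic

section tv

variable {ι : Type} [DecidableEq ι]

lemma tv_of_fst_eq {x a : Ltr ι} (h : x.1 = a.1) : tv x a = 1 := by
  refine aut_ext_el fun y => ?_
  rw [tv, tw_el]
  split_ifs with hy
  · rfl
  · have h1 : y ≠ x := by
      rintro rfl
      exact hy h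
    have h2 : inv y ≠ x := by
      rintro rfl
      exact hy h
    rw [Pi.single_eq_of_ne h1, Pi.single_eq_of_ne h2]
    simp

lemma tv_self {x a : Ltr ι} (h : x.1 ≠ a.1) : tv x a (el x) = el a * el x := by
  rw [tv, tw_el, if_neg h, Pi.single_eq_same, Pi.single_eq_of_ne (inv_ne x)]
  simp

lemma tv_inv_self {x a : Ltr ι} (h : x.1 ≠ a.1) : tv x a (el (inv x)) = el (inv x) * el (inv a) := by
  rw [el_inv x, map_inv, tv_self h, el_inv a, mul_inv_rev]

lemma tv_ne {x a y : Ltr ι} (h : y.1 ≠ x.1) : tv x a (el y) = el y := by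
  have h1 : y ≠ x := by
    rintro rfl
    exact h rfl
  have h2 : inv y ≠ x := by
    rintro rfl
    exact h rfl
  rw [tv, tw_el, Pi.single_eq_of_ne h1, Pi.single_eq_of_ne h2]
  split_ifs <;> simp

lemma tw_inv (a : Ltr ι) (f : Ltr ι → ℤ) : (tw a f)⁻¹ = tw a (-f) := by
  rw [inv_eq_iff_mul_eq_one, ← tw_add, add_neg_cancel, tw_zero]

lemma tw_inv_letter (a : Ltr ι) (f : Ltr ι → ℤ) : tw (inv a) f = tw a (-f) := by
  refine aut_ext_el fun y => ?_
  rw [tw_el, tw_el, inv_fst]
  split_ifs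
  · rfl
  · rw [el_inv]
    simp

lemma autW_tw (w : W ι) (a : Ltr ι) (f : Ltr ι → ℤ) :
    autW w * tw a f = tw (ap w a) (fun y => f (ap w⁻¹ y)) * autW w := by
  refine aut_ext_el fun y => ?_
  rw [MulAut.mul_apply, MulAut.mul_apply, autW_el, tw_el, tw_el]
  by_cases h : y.1 = a.1
  · rw [if_pos h, if_pos ((ap_fst_iff w y a).2 h), autW_el]
  · rw [if_neg h, if_neg fun h' => h ((ap_fst_iff w y a).1 h'), map_mul, map_mul, map_zpow,
      map_zpow, autW_el, autW_el, ← ap_inv, ap_inv_ap, ap_inv_ap]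

lemma autW_tv (w : W ι) (x a : Ltr ι) : autW w * tv x a = tv (ap w x) (ap w a) * autW w := by
  rw [tv, autW_tw]
  congr 2
  funext y
  by_cases h : y = ap w x
  · rw [h, ap_inv_ap, Pi.single_eq_same, Pi.single_eq_same]
  · have h' : ap w⁻¹ y ≠ x := by
      rintro rfl
      exact h (ap_ap_inv w y).symm
    rw [Pi.single_eq_of_ne h, Pi.single_eq_of_ne h']

lemma sw_fst (x y : Ltr ι) : ap (sw x y) x = y := by
  rw [sw_app, swFun, if_pos rfl]

lemma sw_snd (x y : Ltr ι) : ap (sw x y) y = x := by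
  have := congrArg (fun w => ap w x) (sw_mul_self x y)
  simp only [ap_mul, sw_fst, ap_one] at this
  exact this

lemma sw_ne {x y z : Ltr ι} (h1 : z.1 ≠ x.1) (h2 : z.1 ≠ y.1) : ap (sw x y) z = z := by
  rw [sw_app, swFun, if_neg, if_neg, if_neg, if_neg]
  · rintro rfl
    exact h2 rfl
  · rintro rfl
    exact h1 rfl
  · rintro rfl
    exact h2 rfl
  · rintro rfl
    exact h1 rfl

lemma tv_comm (x y a : Ltr ι) : tv x a * tv y a = tv y a * tv x a := by
  rw [tv, tv, ← tw_add, ← tw_add, add_comm]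

lemma tv_disj' (x y a b : Ltr ι) (hxy : x ≠ y) (h1 : x.1 ≠ a.1) (h2 : x.1 ≠ b.1)
    (h3 : y.1 ≠ a.1) (h4 : y.1 ≠ b.1) (_h5 : a.1 ≠ b.1) : tv x a * tv y b = tv y b * tv x a := by
  refine aut_ext' fun i => ?_
  by_cases hi : i = x.1
  · subst hi
    refine ⟨x, rfl, ?_⟩
    rw [MulAut.mul_apply, MulAut.mul_apply, tv_self h1]
    by_cases h : x.1 = y.1
    · have hx : x = inv y := (eq_or_eq_inv h).resolve_left hxy
      subst hx
      rw [tv_inv_self h4, map_mul, map_mul, tv_self h1, tv_ne (y := inv b) (x := inv y),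
        tv_ne (y := a) (x := y), tv_inv_self h4, mul_assoc]
      · exact h3.symm
      · exact h4.symm
    · rw [tv_ne h, tv_self h1, map_mul, tv_ne h3.symm, tv_ne h]
  · by_cases hj : i = y.1
    · subst hj
      refine ⟨y, rfl, ?_⟩
      rw [MulAut.mul_apply, MulAut.mul_apply, tv_self h4, tv_ne hi, tv_self h4, map_mul,
        tv_ne h2.symm, tv_ne hi]
    · refine ⟨(i, true), rfl, ?_⟩
      rw [MulAut.mul_apply, MulAut.mul_apply, tv_ne (y := (i, true)) hi,
        tv_ne (y := (i, true)) hj, tv_ne (y := (i, true)) hi]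

lemma tv_conj' (x a b : Ltr ι) (h1 : x.1 ≠ a.1) (h2 : x.1 ≠ b.1) (h3 : a.1 ≠ b.1) :
    tv a b * tv x a = tv x a * tv x b * tv a b := by
  refine aut_ext' fun i => ?_
  by_cases hi : i = x.1
  · subst hi
    refine ⟨x, rfl, ?_⟩
    simp only [MulAut.mul_apply]
    rw [tv_self h1, map_mul, tv_self h3, tv_ne h1, tv_self h2, map_mul, tv_self h1,
      tv_ne h2.symm, mul_assoc]
  · by_cases hj : i = a.1
    · subst hj
      refine ⟨a, rfl, ?_⟩
      simp only [MulAut.mul_apply]
      rw [tv_ne h1.symm, tv_self h3, map_mul, tv_ne h2.symm, tv_ne h1.symm, map_mul,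
        tv_ne h2.symm, tv_ne h1.symm]
    · refine ⟨(i, true), rfl, ?_⟩
      simp only [MulAut.mul_apply]
      rw [tv_ne (y := (i, true)) hi, tv_ne (y := (i, true)) hj, tv_ne (y := (i, true)) hi,
        tv_ne (y := (i, true)) hi]

lemma tv_rank' (x a : Ltr ι) (h : x.1 ≠ a.1) :
    tv a x = autW (sw x (inv a) * sw a (inv a)) * tv (inv a) x * tv x a := by
  have e1 : tv (inv a) x (el a) = el a * el (inv x) := by
    have := tv_inv_self (x := inv a) (a := x) h.symm
    rwa [Helper96.OP.inv_inv] at this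
  have hx : ap (sw x (inv a) * sw a (inv a)) x = inv a := by
    rw [ap_mul, sw_ne (x := a) (y := inv a) h h, sw_fst]
  have ha : ap (sw x (inv a) * sw a (inv a)) a = x := by
    rw [ap_mul, sw_fst, sw_snd]
  refine aut_ext' fun i => ?_
  by_cases hi : i = x.1
  · subst hi
    refine ⟨x, rfl, ?_⟩
    simp only [MulAut.mul_apply]
    rw [tv_ne h, tv_self h, map_mul (tv (inv a) x), e1, tv_ne (x := inv a) (y := x) h, mul_assoc,
      el_inv, inv_mul_cancel, mul_one, autW_el, ha]
  · by_cases hj : i = a.1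
    · subst hj
      refine ⟨a, rfl, ?_⟩
      simp only [MulAut.mul_apply]
      rw [tv_self h.symm, tv_ne h.symm, e1, map_mul (autW _) (el a), autW_el, autW_el, ha, ap_inv,
        hx, Helper96.OP.inv_inv]
    · refine ⟨(i, true), rfl, ?_⟩
      simp only [MulAut.mul_apply]
      rw [tv_ne (y := (i, true)) hj, tv_ne (y := (i, true)) hi,
        tv_ne (x := inv a) (y := (i, true)) hj, autW_el, ap_mul,
        sw_ne (x := a) (y := inv a) (z := (i, true)) hj hj,
        sw_ne (x := x) (y := inv a) (z := (i, true)) hi hj]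

end tv

variable {ι : Type} [DecidableEq ι] [Fintype ι]

omit [Fintype ι] in
theorem exists_gerstenAut : ∃ 𝔤 : Gersten ι (MulAut (FreeGroup ι)), 𝔤.ρ = autW ∧ 𝔤.E = tv := by
  refine ⟨{
    ρ := autW
    E := tv
    E_self := fun x a h => tv_of_fst_eq h
    E_inv := fun x a => by rw [tv, tv, tw_inv, tw_inv_letter]
    E_comm := fun x y a => tv_comm x y a
    E_disj := tv_disj'
    E_conj := fun x a b h1 h2 h3 => by
      rw [mul_inv_eq_iff_eq_mul, tv_conj' x a b h1 h2 h3]
    E_rank := fun x a h => by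
      rw [mul_inv_eq_iff_eq_mul, mul_inv_eq_iff_eq_mul, tv_rank' x a h]
    E_act := fun w x a => by
      rw [mul_inv_eq_iff_eq_mul, autW_tv] }, rfl, rfl⟩

theorem tw_one (a : Ltr ι) : tw a (fun _ => 1) = MulAut.conj (el a) := by
  refine aut_ext_el fun y => ?_
  rw [tw_el, MulAut.conj_apply]
  split_ifs with h
  · rcases eq_or_eq_inv h with h | h
    · rw [h, mul_inv_cancel_right]
    · rw [h, el_inv, mul_inv_cancel, one_mul]
  · rw [zpow_one, zpow_neg, zpow_one]

end Pool.Agent.Helper16.OP
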