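import Pool.Agent.Helper96.OP.Defs2

set_option autoImplicit false

namespace Pool.Agent.Helper16.OP

open Pool.Agent.Helper96.OP

lemma rtg_mono {α : Type} {r s : α → α → Prop} (h : ∀ a b, r a b → s a b) {x y : α}
    (hxy : Relation.ReflTransGen r x y) : Relation.ReflTransGen s x y := by
  induction hxy with
  | refl => exact Relation.ReflTransGen.refl
  | @tail b c _ hbc ih => exact ih.tail (h b c hbc)

lemma exists_bound {α : Type} (adj : α → α → Prop) (h : α → ℕ) (x y : α)
    (hxy : Relation.ReflTransGen adj x y) :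
    ∃ M, Relation.ReflTransGen (fun x y => adj x y ∧ h x ≤ M ∧ h y ≤ M) x y := by
  induction hxy with
  | refl => exact ⟨0, Relation.ReflTransGen.refl⟩
  | @tail b c _ hbc ih =>
    obtain ⟨M, hM⟩ := ih
    refine ⟨M + h b + h c, ?_⟩
    refine Relation.ReflTransGen.tail (b := b) ?_ ⟨hbc, by omega, by omega⟩
    refine rtg_mono ?_ hM
    rintro u v ⟨h1, h2, h3⟩
    exact ⟨h1, by omega, by omega⟩

theorem push_down {α : Type} (adj : α → α → Prop) (hs : ∀ x y, adj x y → adj y x) (h : α → ℕ)
    (m : ℕ)
    (peak : ∀ M, m < M → ∀ v u v', h v = M → adj v u → h u < M → adj v v' → h v' ≤ M →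
      ∃ u', h u' < M ∧
        Relation.ReflTransGen (fun x y => adj x y ∧ h x < M ∧ h y < M) u u' ∧
        (adj u' v' ∨ u' = v')) (x y : α) (hx : h x ≤ m) (hy : h y ≤ m)
    (hxy : Relation.ReflTransGen adj x y) :
    Relation.ReflTransGen (fun x y => adj x y ∧ h x ≤ m ∧ h y ≤ m) x y := by
  have key : ∀ M, ∀ x y : α, h x ≤ m → h y ≤ m →
      Relation.ReflTransGen (fun x y => adj x y ∧ h x ≤ M ∧ h y ≤ M) x y →
      Relation.ReflTransGen (fun x y => adj x y ∧ h x ≤ m ∧ h y ≤ m) x y := by
    intro M
    induction M with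
    | zero =>
      intro x y _ _ hxy
      refine rtg_mono ?_ hxy
      rintro u v ⟨h1, h2, h3⟩
      exact ⟨h1, by omega, by omega⟩
    | succ M ih =>
      intro x y hx hy hxy
      by_cases hm : M + 1 ≤ m
      · refine rtg_mono ?_ hxy
        rintro u v ⟨h1, h2, h3⟩
        exact ⟨h1, by omega, by omega⟩
      · have hm' : m < M + 1 := by omega
        have main : ∀ v, Relation.ReflTransGen (fun x y => adj x y ∧ h x ≤ M + 1 ∧ h y ≤ M + 1) x v →
            ∃ u, h u < M + 1 ∧
              Relation.ReflTransGen (fun x y => adj x y ∧ h x < M + 1 ∧ h y < M + 1) x u ∧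
              (adj u v ∨ u = v) := by
          intro v hv
          induction hv with
          | refl => exact ⟨x, by omega, Relation.ReflTransGen.refl, Or.inr rfl⟩
          | @tail v v' _ hstep ih2 =>
            obtain ⟨u, hu, hc, ho⟩ := ih2
            obtain ⟨h1, h2, h3⟩ := hstep
            rcases ho with ho | ho
            · by_cases hv : h v < M + 1
              · exact ⟨v, hv, hc.tail ⟨ho, hu, hv⟩, Or.inl h1⟩
              · obtain ⟨u', hu', hc', ho'⟩ := peak (M + 1) hm' v u v' (by omega) (hs _ _ ho) hu h1 h3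
                exact ⟨u', hu', hc.trans hc', ho'⟩
            · subst ho
              exact ⟨u, hu, hc, Or.inl h1⟩
        obtain ⟨u, hu, hc, ho⟩ := main y hxy
        have hfin : Relation.ReflTransGen (fun x y => adj x y ∧ h x < M + 1 ∧ h y < M + 1) x y := by
          rcases ho with ho | ho
          · exact hc.tail ⟨ho, hu, by omega⟩
          · subst ho
            exact hc
        refine ih x y hx hy (rtg_mono ?_ hfin)
        rintro u v ⟨h1, h2, h3⟩
        exact ⟨h1, by omega, by omega⟩
  obtain ⟨M, hM⟩ := exists_bound adj h x y hxy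
  exact key M x y hx hy hM

end Pool.Agent.Helper16.OP
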